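import Mathlib
import Pool.Agent.Helper40.BaireAffine4

open Filter Topology

namespace Pool.Agent.Results.MP_04557e_an.ApproximationProperty

/-- `f : X → E` is affine on the convex set `X`: whenever a point `z` of `X` equals
`t x + (1 - t) y` with `x, y` in `X` and `0 ≤ t ≤ 1`, then `f z = t f x + (1 - t) f y`. -/
def IsAffineOn {V E : Type*} [AddCommGroup V] [Module ℝ V] [AddCommGroup E] [Module ℝ E]
    (X : Set V) (f : X → E) : Prop :=
  ∀ (x y z : X) (t : ℝ), 0 ≤ t → t ≤ 1 →
    (z : V) = t • (x : V) + (1 - t) • (y : V) → f z = t • f x + (1 - t) • f y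

/-- `f` is of the first Baire class: a pointwise limit of a sequence of continuous maps. -/
def IsBaireOne {X E : Type*} [TopologicalSpace X] [TopologicalSpace E] (f : X → E) : Prop :=
  ∃ F : ℕ → X → E, (∀ n, Continuous (F n)) ∧ ∀ x, Tendsto (fun n => F n x) atTop (𝓝 (f x))

/-- `f` is a pointwise limit of a sequence of continuous affine maps. -/
def IsAffineBaireOne {V E : Type*} [AddCommGroup V] [Module ℝ V] [TopologicalSpace V]
    [AddCommGroup E] [Module ℝ E] [TopologicalSpace E] (X : Set V) (f : X → E) : Prop :=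
  ∃ F : ℕ → X → E, (∀ n, Continuous (F n) ∧ IsAffineOn X (F n)) ∧
    ∀ x, Tendsto (fun n => F n x) atTop (𝓝 (f x))

/-- The approximation property of a normed space `E` over `𝕜`. -/
def HasApproximationProperty (𝕜 E : Type*) [NontriviallyNormedField 𝕜] [NormedAddCommGroup E]
    [NormedSpace 𝕜 E] : Prop :=
  ∀ K : Set E, IsCompact K → ∀ ε : ℝ, 0 < ε →
    ∃ T : E →L[𝕜] E, FiniteDimensional 𝕜 (LinearMap.range (T : E →ₗ[𝕜] E)) ∧
      ∀ x ∈ K, ‖T x - x‖ < ε

theorem result (𝕜 : Type*) [RCLike 𝕜] {E : Type*} [NormedAddCommGroup E] [NormedSpace 𝕜 E]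
    [NormedSpace ℝ E] [IsScalarTower ℝ 𝕜 E] [CompleteSpace E]
    (hE : HasApproximationProperty 𝕜 E)
    {V : Type*} [AddCommGroup V] [Module ℝ V] [TopologicalSpace V]
    [IsTopologicalAddGroup V] [ContinuousSMul ℝ V] [T2Space V] [LocallyConvexSpace ℝ V]
    (X : Set V) (hX : IsCompact X) (hXc : Convex ℝ X)
    (f : X → E) (hf : IsAffineOn X f) (hf1 : IsBaireOne f) :
    IsAffineBaireOne X f := by
  have hAP : Pool.Agent.Helper40.BaireAffine.HasAP ℝ E := by
    intro K hK ε hε
    obtain ⟨T, hT1, hT2⟩ := hE K hK ε hε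
    refine ⟨T.restrictScalars ℝ, ?_, fun x hx => hT2 x hx⟩
    have : FiniteDimensional ℝ (LinearMap.range (T : E →ₗ[𝕜] E)) :=
      FiniteDimensional.trans ℝ 𝕜 _
    exact this
  obtain ⟨h, hc, hh⟩ := hf1
  exact Pool.Agent.Helper40.BaireAffine.main_real hX hXc hAP f hf h hc hh

end Pool.Agent.Results.MP_04557e_an.ApproximationProperty
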