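import Mathlib
import Pool.Agent.Helper31.BQ.AllB

set_option autoImplicit false

open Filter Topology

namespace Pool.Agent.Results.MP_04557e_an.CompactApproximationFails

/-- `f : X → E` is affine on the convex set `X`: whenever a point `z` of `X` equals
`t x + (1 - t) y` with `x, y` in `X` and `0 ≤ t ≤ 1`, then `f z = t f x + (1 - t) f y`. -/
def IsAffineOn {V E : Type*} [AddCommGroup V] [Module ℝ V] [AddCommGroup E] [Module ℝ E]
    (X : Set V) (f : X → E) : Prop :=
  ∀ (x y z : X) (t : ℝ), 0 ≤ t → t ≤ 1 →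
    (z : V) = t • (x : V) + (1 - t) • (y : V) → f z = t • f x + (1 - t) • f y

/-- `f` is of the first Baire class: a pointwise limit of a sequence of continuous maps. -/
def IsBaireOne {X E : Type*} [TopologicalSpace X] [TopologicalSpace E] (f : X → E) : Prop :=
  ∃ F : ℕ → X → E, (∀ n, Continuous (F n)) ∧ ∀ x, Tendsto (fun n => F n x) atTop (𝓝 (f x))

/-- `f` is a pointwise limit of a sequence of continuous affine maps. -/
def IsAffineBaireOne {V E : Type*} [AddCommGroup V] [Module ℝ V] [TopologicalSpace V]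
    [AddCommGroup E] [Module ℝ E] [TopologicalSpace E] (X : Set V) (f : X → E) : Prop :=
  ∃ F : ℕ → X → E, (∀ n, Continuous (F n) ∧ IsAffineOn X (F n)) ∧
    ∀ x, Tendsto (fun n => F n x) atTop (𝓝 (f x))

/-- The compact approximation property of a real normed space `E`. -/
def HasCompactApproximationProperty (E : Type*) [NormedAddCommGroup E] [NormedSpace ℝ E] : Prop :=
  ∀ K : Set E, IsCompact K → ∀ ε : ℝ, 0 < ε →
    ∃ T : E →L[ℝ] E, IsCompactOperator T ∧ ∀ x ∈ K, ‖T x - x‖ < ε

theorem result : ∃ (E : Type) (_ : NormedAddCommGroup E) (_ : NormedSpace ℝ E),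
    CompleteSpace E ∧ TopologicalSpace.SeparableSpace E ∧ HasCompactApproximationProperty E ∧
    ∃ (V : Type) (_ : AddCommGroup V) (_ : Module ℝ V) (_ : TopologicalSpace V)
      (X : Set V) (f : X → E),
      IsTopologicalAddGroup V ∧ ContinuousSMul ℝ V ∧ T2Space V ∧ LocallyConvexSpace ℝ V ∧
      IsCompact X ∧ Convex ℝ X ∧ IsAffineOn X f ∧ IsBaireOne f ∧ ¬ IsAffineBaireOne X f := by
  obtain ⟨E, i1, i2, hc, hs, hcap, hq⟩ := Pool.Agent.Helper31.BQ.allB
  refine ⟨E, i1, i2, hc, hs, hcap, ?_⟩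
  by_contra hne
  refine hq ?_
  intro V j1 j2 j3 j4 j5 j6 j7 X hX hXc f hf hf1
  by_contra hn
  exact hne ⟨V, j1, j2, j3, X, f, j4, j5, j6, j7, hX, hXc, hf, hf1, hn⟩

end Pool.Agent.Results.MP_04557e_an.CompactApproximationFails
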